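import Pool.Agent.helper19.MX.SpecC

/-!
# Row EV1 of project mx
-/

set_option autoImplicit false

namespace MX

open Pool.Agent.helper53.AU AN
open scoped Classical Topology

theorem EV1_uniq {k F : Type} [Field k] [Field F] [Algebra k F] (P : Place k F) (f : F) (c c' : k)
    (h : P.Ge 1 (f - algebraMap k F c)) (h' : P.Ge 1 (f - algebraMap k F c')) : c = c' := by
  by_contra hne
  have h1 : P.Ge 1 (algebraMap k F (c - c')) := by
    have h2 := h'.sub h
    have e : f - algebraMap k F c' - (f - algebraMap k F c) = algebraMap k F (c - c') := by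
      rw [map_sub]; ring
    rwa [e] at h2
  have h3 : c - c' ≠ 0 := sub_ne_zero.2 hne
  rcases h1 with h1 | h1
  · exact h3 ((map_eq_zero (algebraMap k F)).1 h1)
  · rw [P.ord_const _ h3] at h1
    omega

theorem EV1 (hQV1 : QV1_stmt) : EV1_stmt := by
  intro k F _ _ _ _ _ hF P
  have hex : ∀ f : F, ∃ c : k, P.Ge 0 f → P.Ge 1 (f - algebraMap k F c) := by
    intro f
    by_cases hf : P.Ge 0 f
    · obtain ⟨c, hc⟩ := hQV1 k F hF P f hf
      exact ⟨c, fun _ => hc⟩
    · exact ⟨0, fun h => absurd h hf⟩
  choose ρ hρ using hex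
  refine ⟨ρ, hρ, ?_, ?_, ?_, ?_⟩
  · have h1 : P.Ge 0 (1 : F) := by
      have := P.ge_const (1 : k)
      rwa [map_one] at this
    refine EV1_uniq P 1 _ _ (hρ 1 h1) ?_
    rw [map_one, sub_self]
    exact P.ge_zero 1
  · refine EV1_uniq P 0 _ _ (hρ 0 (P.ge_zero 0)) ?_
    rw [map_zero, sub_self]
    exact P.ge_zero 1
  · intro f g hf hg
    constructor
    · refine EV1_uniq P (f + g) _ _ (hρ _ (hf.add hg)) ?_
      have h1 := (hρ f hf).add (hρ g hg)
      have e : f - algebraMap k F (ρ f) + (g - algebraMap k F (ρ g)) =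
          f + g - algebraMap k F (ρ f + ρ g) := by
        rw [map_add]; ring
      rwa [e] at h1
    · have hfg : P.Ge 0 (f * g) := hf.mul hg
      refine EV1_uniq P (f * g) _ _ (hρ _ hfg) ?_
      have h1 : P.Ge 1 (f * (g - algebraMap k F (ρ g))) := by
        have := hf.mul (hρ g hg)
        simpa using this
      have h2 : P.Ge 1 (algebraMap k F (ρ g) * (f - algebraMap k F (ρ f))) :=
        (hρ f hf).const_mul (ρ g)
      have h3 := h1.add h2
      have e : f * (g - algebraMap k F (ρ g)) + algebraMap k F (ρ g) * (f - algebraMap k F (ρ f)) =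
          f * g - algebraMap k F (ρ f * ρ g) := by
        rw [map_mul]; ring
      rwa [e] at h3
  · intro n α hα hP f e hf he hfe
    obtain ⟨c', hc', hc'n⟩ := hα (ρ f)
    have h1 : P.Ge 1 (α (f - algebraMap k F (ρ f))) := by
      rcases hρ f hf with h | h
      · rw [h, map_zero]
        exact P.ge_zero 1
      · right
        rw [hP]
        exact h
    rw [map_sub, hfe, hc'] at h1
    have h2 : P.Ge 1 (f - algebraMap k F (c' - e)) := by
      have e1 : f + algebraMap k F e - algebraMap k F c' = f - algebraMap k F (c' - e) := by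
        rw [map_sub]; ring
      rwa [e1] at h1
    have h3 : ρ f = c' - e := EV1_uniq P f _ _ (hρ f hf) h2
    have h4 : c' = ρ f + e := by rw [h3]; ring
    have h5 : (4 : ℕ) ^ n = 2 ^ (2 * n) := by rw [pow_mul]; norm_num
    have h6 : e ^ (4 ^ n) = e := by
      rcases he with rfl | rfl
      · exact zero_pow (by positivity)
      · exact one_pow _
    have h7 : (ρ f + e) ^ (4 ^ n) = ρ f := by rw [← h4]; exact hc'n
    rw [h5, add_pow_char_pow, ← h5, h6] at h7
    have h8 : (2 : k) = 0 := CharTwo.two_eq_zero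
    have h9 : e + e = 0 := CharTwo.add_self_eq_zero e
    calc ρ f ^ (4 ^ n) = (ρ f ^ (4 ^ n) + e) + e := by rw [add_assoc, h9, add_zero]
      _ = ρ f + e := by rw [h7]

end MX
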